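import Mathlib

namespace Pool.Agent.Results.MP_6e5fe0_co.UncountableFlame

universe u v

/-- A rooted digraph with vertex type `V` and edge type `E`: every edge `e` goes from `src e` to
`tgt e`; parallel edges are allowed, loops are not, and the root has no ingoing edge. -/
structure RootedDigraph (V : Type u) (E : Type v) where
  src : E → V
  tgt : E → V
  root : V
  no_loop : ∀ e, src e ≠ tgt e
  root_no_in : ∀ e, tgt e ≠ root

namespace RootedDigraph

variable {V : Type u} {E : Type v}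

/-- `D.IsWalk x y l`: the list `l` of edges is a directed walk of `D` from `x` to `y`. -/
def IsWalk (D : RootedDigraph V E) : V → V → List E → Prop
  | x, y, [] => x = y
  | x, y, e :: l => D.src e = x ∧ IsWalk D (D.tgt e) y l

/-- `D.IsRootPath F v P`: the set `P` of edges is the edge set of a (finite directed) path from the
root to `v` in `D(F)`, the digraph with all the vertices of `D` and the edges in `F`.
The vertices of the path (`root`, followed by the targets of its edges) are distinct. -/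
def IsRootPath (D : RootedDigraph V E) (F : Set E) (v : V) (P : Set E) : Prop :=
  ∃ l : List E, D.IsWalk D.root v l ∧ (D.root :: l.map D.tgt).Nodup ∧ (∀ e ∈ l, e ∈ F) ∧
    P = {e | e ∈ l}

/-- `D.GAt F v` is the family `𝒢_{D(F)}(v)`: the sets `I` of edges of `D(F)` entering `v` such that
some family of pairwise edge-disjoint paths from the root to `v` in `D(F)` covers `I`. -/
def GAt (D : RootedDigraph V E) (F : Set E) (v : V) : Set (Set E) :=
  {I | (∀ e ∈ I, e ∈ F ∧ D.tgt e = v) ∧
    ∃ Ps : Set (Set E), (∀ P ∈ Ps, D.IsRootPath F v P) ∧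
      (∀ P ∈ Ps, ∀ Q ∈ Ps, P ≠ Q → Disjoint P Q) ∧ ∀ e ∈ I, ∃ P ∈ Ps, e ∈ P}

/-- `D.G F` is the family `𝒢(D(F))`: the unions of sets `I v ∈ 𝒢_{D(F)}(v)` over all vertices `v`
other than the root. In particular `D.G Set.univ` is `𝒢(D)`. -/
def G (D : RootedDigraph V E) (F : Set E) : Set (Set E) :=
  {J | ∃ I : V → Set E, (∀ v, v ≠ D.root → I v ∈ D.GAt F v) ∧
    J = {e | ∃ v, v ≠ D.root ∧ e ∈ I v}}

/-- `D.IsFlame F`: the set `F` of edges is a flame of `D`, i.e. `F ∈ 𝒢(D(F))`. -/
def IsFlame (D : RootedDigraph V E) (F : Set E) : Prop := F ∈ D.G F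

/-- `D` has no directed cycle: every closed directed walk is empty. -/
def Acyclic (D : RootedDigraph V E) : Prop := ∀ v l, D.IsWalk v v l → l = []

/-- `D` has no backward-infinite path `⋯ → x 2 → x 1 → x 0` (with distinct vertices). -/
def NoBackwardInfinitePath (D : RootedDigraph V E) : Prop :=
  ¬ ∃ (x : ℕ → V) (f : ℕ → E), Function.Injective x ∧
    ∀ n, D.src (f n) = x (n + 1) ∧ D.tgt (f n) = x n

/-- `D` has no parallel edges. -/
def Simple (D : RootedDigraph V E) : Prop :=
  ∀ e e', D.src e = D.src e' → D.tgt e = D.tgt e' → e = e'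

theorem IsWalk.pred {D : RootedDigraph V E} {y : V} {l : List E} :
    ∀ {x : V}, D.IsWalk x y l → ∀ e ∈ l, D.src e ≠ x → ∃ e' ∈ l, D.tgt e' = D.src e := by
  induction l with
  | nil => intro x _ e he; simp at he
  | cons a l ih =>
    intro x h e he hne
    obtain ⟨h1, h2⟩ := h
    rcases List.mem_cons.1 he with rfl | he'
    · exact absurd h1 hne
    · by_cases hs : D.src e = D.tgt a
      · exact ⟨a, List.mem_cons_self, hs.symm⟩
      · obtain ⟨e', he1, he2⟩ := ih h2 e he' hs
        exact ⟨e', List.mem_cons_of_mem _ he1, he2⟩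

theorem IsRootPath.pred {D : RootedDigraph V E} {F : Set E} {v : V} {P : Set E}
    (h : D.IsRootPath F v P) {e : E} (he : e ∈ P) (hne : D.src e ≠ D.root) :
    ∃ e' ∈ P, D.tgt e' = D.src e := by
  obtain ⟨l, hw, -, -, rfl⟩ := h
  exact hw.pred e he hne

theorem IsRootPath.inj {D : RootedDigraph V E} {F : Set E} {v : V} {P : Set E}
    (h : D.IsRootPath F v P) {e e' : E} (he : e ∈ P) (he' : e' ∈ P) (ht : D.tgt e = D.tgt e') :
    e = e' := by
  obtain ⟨l, -, hn, -, rfl⟩ := h
  exact List.inj_on_of_nodup_map (List.nodup_cons.1 hn).2 he he' ht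

theorem IsRootPath.mem {D : RootedDigraph V E} {F : Set E} {v : V} {P : Set E}
    (h : D.IsRootPath F v P) {e : E} (he : e ∈ P) : e ∈ F := by
  obtain ⟨l, -, -, hF, rfl⟩ := h
  exact hF e he

/-- The local condition at each vertex for a flame. -/
theorem IsFlame.at {D : RootedDigraph V E} {F : Set E} (h : D.IsFlame F) (v : V) :
    ∃ Ps : Set (Set E), (∀ P ∈ Ps, D.IsRootPath F v P) ∧
      (∀ P ∈ Ps, ∀ Q ∈ Ps, P ≠ Q → Disjoint P Q) ∧
      ∀ e ∈ F, D.tgt e = v → ∃ P ∈ Ps, e ∈ P := by
  obtain ⟨I, hI, hF⟩ := h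
  by_cases hv : v = D.root
  · refine ⟨∅, by simp, by simp, ?_⟩
    intro e _ he
    exact absurd (he.trans hv) (D.root_no_in e)
  · obtain ⟨-, Ps, h1, h2, h3⟩ := hI v hv
    refine ⟨Ps, h1, h2, ?_⟩
    intro e heF he
    have : e ∈ {e | ∃ v, v ≠ D.root ∧ e ∈ I v} := hF ▸ heF
    obtain ⟨v', hv', he'⟩ := this
    have : D.tgt e = v' := ((hI v' hv').1 e he').2
    have hvv : v' = v := this.symm.trans he
    subst hvv
    exact h3 e he'

end RootedDigraph

/-! ### The counterexample -/

section Example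

variable (B : Type)

/-- The vertices of the counterexample. -/
inductive Vtx : Type
  | r : Vtx
  | c : ℕ → Vtx
  | p : B → Vtx
  | q : B → Vtx
  | u : Vtx
  | w : B → Vtx

/-- The edges of the counterexample. -/
inductive Edg : Type
  | rc : ℕ → Edg
  | cp : ℕ → B → Edg
  | pq : B → Edg
  | qu : B → Edg
  | qw : B → B → Edg
  | uw : B → Edg

variable {B}

/-- The sources of the edges. -/
def esrc : Edg B → Vtx B
  | .rc _ => .r
  | .cp n _ => .c n
  | .pq b => .p b
  | .qu b => .q b
  | .qw b _ => .q b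
  | .uw _ => .u

/-- The targets of the edges. -/
def etgt : Edg B → Vtx B
  | .rc n => .c n
  | .cp _ b => .p b
  | .pq b => .q b
  | .qu _ => .u
  | .qw _ g => .w g
  | .uw g => .w g

/-- The level of a vertex. -/
def lev : Vtx B → ℕ
  | .r => 0
  | .c _ => 1
  | .p _ => 2
  | .q _ => 3
  | .u => 4
  | .w _ => 5

theorem lev_lt (e : Edg B) : lev (esrc e) < lev (etgt e) := by
  cases e <;> simp [lev, esrc, etgt]

theorem lev_le (x : Vtx B) : lev x ≤ 5 := by
  cases x <;> simp [lev]

variable (B) in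
/-- The counterexample. -/
def exD : RootedDigraph (Vtx B) (Edg B) where
  src := esrc
  tgt := etgt
  root := .r
  no_loop := fun e h => by
    have := lev_lt e
    rw [h] at this
    exact lt_irrefl _ this
  root_no_in := fun e => by cases e <;> simp [etgt]

theorem walk_lev {y : Vtx B} {l : List (Edg B)} :
    ∀ {x : Vtx B}, (exD B).IsWalk x y l → lev x + l.length ≤ lev y := by
  induction l with
  | nil => intro x h; cases h; simp
  | cons a l ih =>
    intro x h
    obtain ⟨h1, h2⟩ := h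
    have h3 := ih h2
    have h4 := lev_lt a
    have h5 : esrc a = x := h1
    rw [h5] at h4
    have h6 : lev ((exD B).tgt a) = lev (etgt a) := rfl
    simp only [List.length_cons]
    omega

theorem exD_acyclic : (exD B).Acyclic := by
  intro v l h
  have := walk_lev h
  exact List.length_eq_zero_iff.1 (by omega)

theorem exD_noBack : (exD B).NoBackwardInfinitePath := by
  rintro ⟨x, f, -, h⟩
  have key : ∀ n, lev (x n) + n ≤ lev (x 0) := by
    intro n
    induction n with
    | zero => simp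
    | succ n ih =>
      have h1 := lev_lt (f n)
      have h2 : esrc (f n) = x (n + 1) := (h n).1
      have h3 : etgt (f n) = x n := (h n).2
      rw [h2, h3] at h1
      omega
  have h1 := key 6
  have h2 := lev_le (x 0)
  omega

theorem exD_simple : (exD B).Simple := by
  intro e e' h h'
  change esrc e = esrc e' at h
  change etgt e = etgt e' at h'
  cases e <;> cases e' <;> simp_all [esrc, etgt]

/-- The element of `𝒢(D)` which is contained in no flame. -/
def exI [LT B] : Set (Edg B) := {e | (∃ b g, b < g ∧ e = .qw b g) ∨ ∃ g, e = .uw g}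

theorem exI_mem [LinearOrder B] (hc : ∀ g : B, (Set.Iio g).Countable) :
    exI ∈ (exD B).G Set.univ := by
  refine ⟨fun v => {e | e ∈ exI ∧ (exD B).tgt e = v}, ?_, ?_⟩
  · intro v hv
    refine ⟨fun e he => ⟨Set.mem_univ _, he.2⟩, ?_⟩
    cases v with
    | w g =>
      obtain ⟨n, hn⟩ := (Set.countable_iff_exists_injOn.1 (hc g))
      let P : B → Set (Edg B) := fun b =>
        {e | e ∈ [Edg.rc (n b + 1), Edg.cp (n b + 1) b, Edg.pq b, Edg.qw b g]}
      let Q : Set (Edg B) :=
        {e | e ∈ [Edg.rc 0, Edg.cp 0 g, Edg.pq g, Edg.qu g, Edg.uw g]}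
      have hPQ : ∀ b < g, Disjoint (P b) Q := by
        intro b hb
        rw [Set.disjoint_left]
        intro e he he'
        simp only [P, Q, Set.mem_ofPred_eq, List.mem_cons, List.not_mem_nil, or_false] at he he'
        rcases he with rfl | rfl | rfl | rfl <;> simp at he'
        exact hb.ne he'
      have hPP : ∀ b < g, ∀ b' < g, b ≠ b' → Disjoint (P b) (P b') := by
        intro b hb b' hb' hbb
        have hnn : n b ≠ n b' := fun h => hbb (hn hb hb' h)
        rw [Set.disjoint_left]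
        intro e he he'
        simp only [P, Set.mem_ofPred_eq, List.mem_cons, List.not_mem_nil, or_false] at he he'
        rcases he with rfl | rfl | rfl | rfl <;> simp at he' <;> tauto
      refine ⟨{S | (∃ b, b < g ∧ S = P b) ∨ S = Q}, ?_, ?_, ?_⟩
      · rintro S (⟨b, hb, rfl⟩ | rfl)
        · refine ⟨_, ?_, ?_, fun e _ => Set.mem_univ e, rfl⟩
          · simp [RootedDigraph.IsWalk, exD, esrc, etgt]
          · simp [exD, etgt]
        · refine ⟨_, ?_, ?_, fun e _ => Set.mem_univ e, rfl⟩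
          · simp [RootedDigraph.IsWalk, exD, esrc, etgt]
          · simp [exD, etgt]
      · rintro S (⟨b, hb, rfl⟩ | rfl) T (⟨b', hb', rfl⟩ | rfl) hST
        · exact hPP b hb b' hb' (fun h => hST (by rw [h]))
        · exact hPQ b hb
        · exact (hPQ b' hb').symm
        · exact absurd rfl hST
      · rintro e ⟨⟨b, g', hb, rfl⟩ | ⟨g', rfl⟩, he⟩
        · have : g' = g := by simpa [exD, etgt] using he
          subst this
          exact ⟨P b, Or.inl ⟨b, hb, rfl⟩, by simp [P]⟩
        · have : g' = g := by simpa [exD, etgt] using he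
          subst this
          exact ⟨Q, Or.inr rfl, by simp [Q]⟩
    | r => exact absurd rfl hv
    | _ =>
      refine ⟨∅, by simp, by simp, ?_⟩
      rintro e ⟨⟨b, g', hb, rfl⟩ | ⟨g', rfl⟩, he⟩ <;> simp [exD, etgt] at he
  · ext e
    constructor
    · intro he
      exact ⟨(exD B).tgt e, (exD B).root_no_in e, he, rfl⟩
    · rintro ⟨v, -, he, -⟩
      exact he

theorem no_flame [LinearOrder B] (hB : ¬ Countable B) (hc : ∀ g : B, (Set.Iio g).Countable)
    {F : Set (Edg B)} (hF : (exD B).IsFlame F) (hI : exI ⊆ F) : False := by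
  classical
  -- the paths below `q b`
  have hpath : ∀ (v : Vtx B) (P : Set (Edg B)), (exD B).IsRootPath F v P →
      ∀ b, (∃ e ∈ P, esrc e = Vtx.q b) → Edg.pq b ∈ P ∧ ∃ n, Edg.rc n ∈ P := by
    intro v P hP b hb
    obtain ⟨e, he, hs⟩ := hb
    have h1 : ∃ e' ∈ P, etgt e' = esrc e := hP.pred he (by
      change esrc e ≠ Vtx.r
      rw [hs]; simp)
    obtain ⟨e1, he1, ht1⟩ := h1
    rw [hs] at ht1
    have e1eq : e1 = Edg.pq b := by
      cases e1 <;> simp_all [etgt]
    subst e1eq
    have h2 : ∃ e' ∈ P, etgt e' = esrc (Edg.pq b) := hP.pred he1 (by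
      change esrc (Edg.pq b) ≠ Vtx.r
      simp [esrc])
    obtain ⟨e2, he2, ht2⟩ := h2
    have : ∃ n, e2 = Edg.cp n b := by
      cases e2 <;> simp_all [etgt, esrc]
    obtain ⟨n, rfl⟩ := this
    have h3 : ∃ e' ∈ P, etgt e' = esrc (Edg.cp n b) := hP.pred he2 (by
      change esrc (Edg.cp n b) ≠ Vtx.r
      simp [esrc])
    obtain ⟨e3, he3, ht3⟩ := h3
    have : e3 = Edg.rc n := by
      cases e3 <;> simp_all [etgt, esrc]
    subst this
    exact ⟨he1, n, he3⟩
  -- countably many edges of `F` enter `u`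
  have hS : {b : B | Edg.qu b ∈ F}.Countable := by
    obtain ⟨Ps, h1, h2, h3⟩ := hF.at Vtx.u
    have h4 : ∀ b : B, Edg.qu b ∈ F → ∃ P ∈ Ps, Edg.qu b ∈ P ∧ ∃ n, Edg.rc n ∈ P := by
      intro b hb
      obtain ⟨P, hP, hbP⟩ := h3 (Edg.qu b) hb rfl
      exact ⟨P, hP, hbP, (hpath _ P (h1 P hP) b ⟨_, hbP, rfl⟩).2⟩
    choose! P hP hbP n hn using h4
    refine Set.countable_iff_exists_injOn.2 ⟨n, ?_⟩
    intro b hb b' hb' hnn
    have h5 : P b = P b' := by
      by_contra hne
      have := h2 _ (hP b hb) _ (hP b' hb') hne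
      rw [Set.disjoint_left] at this
      refine this (hn b hb) ?_
      change n b = n b' at hnn
      rw [hnn]
      exact hn b' hb'
    have h6 : Edg.qu b' ∈ P b := by rw [h5]; exact hbP b' hb'
    have h7 := (h1 _ (hP b hb)).inj (hbP b hb) h6 rfl
    simpa using h7
  -- a bound for them
  have hg : ∃ g : B, ∀ b, Edg.qu b ∈ F → b < g := by
    by_contra hcon
    push Not at hcon
    apply hB
    have : (Set.univ : Set B) ⊆ ⋃ b ∈ {b : B | Edg.qu b ∈ F}, Set.Iic b := by
      intro g _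
      obtain ⟨b, hb, hgb⟩ := hcon g
      exact Set.mem_biUnion (show b ∈ {b : B | Edg.qu b ∈ F} from hb) hgb
    rw [← Set.countable_univ_iff]
    refine Set.Countable.mono this (hS.biUnion ?_)
    intro b _
    have : Set.Iic b = insert b (Set.Iio b) := by
      ext x; simp [le_iff_eq_or_lt]
    rw [this]
    exact (hc b).insert b
  obtain ⟨g, hg⟩ := hg
  obtain ⟨Ps, h1, h2, h3⟩ := hF.at (Vtx.w g)
  obtain ⟨P, hP, hgP⟩ := h3 (Edg.uw g) (hI (Or.inr ⟨g, rfl⟩)) rfl
  have h4 : ∃ e' ∈ P, etgt e' = esrc (Edg.uw g) := (h1 P hP).pred hgP (by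
    change esrc (Edg.uw g) ≠ Vtx.r
    simp [esrc])
  obtain ⟨e, he, ht⟩ := h4
  have : ∃ b, e = Edg.qu b := by
    cases e <;> simp_all [etgt, esrc]
  obtain ⟨b, rfl⟩ := this
  have hbF : Edg.qu b ∈ F := (h1 P hP).mem he
  have hbg : b < g := hg b hbF
  have hpq : Edg.pq b ∈ P := (hpath _ P (h1 P hP) b ⟨_, he, rfl⟩).1
  obtain ⟨P', hP', hgP'⟩ := h3 (Edg.qw b g) (hI (Or.inl ⟨b, g, hbg, rfl⟩)) rfl
  have hpq' : Edg.pq b ∈ P' := (hpath _ P' (h1 P' hP') b ⟨_, hgP', rfl⟩).1
  have hPP' : P = P' := by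
    by_contra hne
    have := h2 _ hP _ hP' hne
    rw [Set.disjoint_left] at this
    exact this hpq hpq'
  subst hPP'
  have h7 := (h1 _ hP).inj hgP hgP' rfl
  simp at h7

end Example

/-! ### Cardinalities -/

section Card

open Cardinal

/-- The vertices as a sum type. -/
def vtxEquiv (B : Type) : Vtx B ≃ (Unit ⊕ ℕ) ⊕ (B ⊕ B) ⊕ (Unit ⊕ B) where
  toFun
    | .r => .inl (.inl ())
    | .c n => .inl (.inr n)
    | .p b => .inr (.inl (.inl b))
    | .q b => .inr (.inl (.inr b))
    | .u => .inr (.inr (.inl ()))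
    | .w b => .inr (.inr (.inr b))
  invFun
    | .inl (.inl ()) => .r
    | .inl (.inr n) => .c n
    | .inr (.inl (.inl b)) => .p b
    | .inr (.inl (.inr b)) => .q b
    | .inr (.inr (.inl ())) => .u
    | .inr (.inr (.inr b)) => .w b
  left_inv x := by cases x <;> rfl
  right_inv x := by rcases x with (_ | _) | (_ | _) | (_ | _) <;> rfl

/-- The edges as a sum type. -/
def edgEquiv (B : Type) : Edg B ≃ (ℕ ⊕ (ℕ × B)) ⊕ (B ⊕ B) ⊕ ((B × B) ⊕ B) where
  toFun
    | .rc n => .inl (.inl n)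
    | .cp n b => .inl (.inr (n, b))
    | .pq b => .inr (.inl (.inl b))
    | .qu b => .inr (.inl (.inr b))
    | .qw b g => .inr (.inr (.inl (b, g)))
    | .uw b => .inr (.inr (.inr b))
  invFun
    | .inl (.inl n) => .rc n
    | .inl (.inr (n, b)) => .cp n b
    | .inr (.inl (.inl b)) => .pq b
    | .inr (.inl (.inr b)) => .qu b
    | .inr (.inr (.inl (b, g))) => .qw b g
    | .inr (.inr (.inr b)) => .uw b
  left_inv x := by cases x <;> rfl
  right_inv x := by rcases x with (_ | ⟨_, _⟩) | (_ | _) | (⟨_, _⟩ | _) <;> rfl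

theorem card_vtx (B : Type) (hB : #B = ℵ₁) : #(Vtx B) = ℵ₁ := by
  have h0 : (ℵ₀ : Cardinal) ≤ ℵ₁ := Cardinal.aleph0_le_aleph 1
  have h1 : (1 : Cardinal) ≤ ℵ₁ := le_trans Cardinal.one_le_aleph0 h0
  rw [Cardinal.mk_congr (vtxEquiv B)]
  simp only [Cardinal.mk_sum, Cardinal.lift_id, Cardinal.mk_unit, Cardinal.mk_nat, hB]
  rw [Cardinal.add_eq_right h0 (le_refl _)]
  simp [h0, h1, Cardinal.add_eq_right]

theorem card_edg (B : Type) (hB : #B = ℵ₁) : #(Edg B) = ℵ₁ := by
  have h0 : (ℵ₀ : Cardinal) ≤ ℵ₁ := Cardinal.aleph0_le_aleph 1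
  rw [Cardinal.mk_congr (edgEquiv B)]
  simp only [Cardinal.mk_sum, Cardinal.lift_id, Cardinal.mk_nat, hB, Cardinal.mk_prod]
  rw [Cardinal.mul_eq_self h0, Cardinal.mul_eq_right h0 h0 Cardinal.aleph0_ne_zero]
  simp [h0, Cardinal.add_eq_right]

end Card

open Cardinal in
/-- There are a simple acyclic rooted digraph `D` with `ℵ₁` vertices and `ℵ₁` edges in which every
directed walk has at most five edges (in particular there is no backward-infinite path), and a
set `I ∈ 𝒢(D)` that is contained in no flame of `D`. -/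
theorem result : ∃ (V E : Type) (D : RootedDigraph V E),
    D.Acyclic ∧ D.NoBackwardInfinitePath ∧
    (D.Simple ∧ #V = ℵ₁ ∧ #E = ℵ₁ ∧ ∀ x y l, D.IsWalk x y l → l.length ≤ 5) ∧
    ∃ I ∈ D.G Set.univ, ¬ ∃ F : Set E, D.IsFlame F ∧ I ⊆ F := by
  let B : Type := (ℵ₁).ord.ToType
  have hB : #B = ℵ₁ := Cardinal.mk_ord_toType _
  have hBc : ¬ Countable B := by
    rw [← Cardinal.mk_le_aleph0_iff, hB, not_le]
    exact Cardinal.aleph0_lt_aleph_one
  have hc : ∀ g : B, (Set.Iio g).Countable := by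
    intro g
    have h1 : #(Set.Iio g) < #B := Cardinal.mk_Iio_lt g (by rw [hB]; exact (Ordinal.type_toType _).symm)
    rw [← Cardinal.le_aleph0_iff_set_countable]
    refine Order.lt_succ_iff.1 ?_
    rw [Cardinal.succ_aleph0]
    exact h1.trans_eq hB
  refine ⟨Vtx B, Edg B, exD B, exD_acyclic, exD_noBack,
    ⟨exD_simple, card_vtx B hB, card_edg B hB, ?_⟩, exI, exI_mem hc, ?_⟩
  · intro x y l h
    have h1 := walk_lev h
    have h2 := lev_le y
    omega
  · rintro ⟨F, hF, hI⟩
    exact no_flame hBc hc hF hI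

end Pool.Agent.Results.MP_6e5fe0_co.UncountableFlame
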